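import Pool.Agent.W_MP_de5a3f_an.Proof

set_option autoImplicit false

namespace Pool.Agent.Results.MP_de5a3f_an.AntichainIdeal

open Pool.Agent.W_MP_de5a3f_an

/-- **Answer to Q1: yes.** There is a family `F` of finite subsets of `2^{<ℕ}` covering `2^{<ℕ}`
such that `H(F, ¬c₀)` is exactly the collection of the finite unions of antichains. -/
theorem result : ∃ F : Cover (List Bool), noC0 F = antichainIdeal :=
  ⟨treeFamily, main⟩

end Pool.Agent.Results.MP_de5a3f_an.AntichainIdeal
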